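import Mathlib

namespace Pool.Agent.Results.MP_8b0535_co.No

open Finset Filter Topology

theorem core {β : Type} [DecidableEq β] (m D : ℕ) (N : Fin m → Finset β)
    (hD : D * D + 2 < m)
    (hup : ∀ u v, u ≠ v → (N u ∩ N v).card ≤ D)
    (hlo : ∀ u v, u ≠ v → 3 ≤ (N u ∩ N v).card)
    (h3 : ∀ u v w, u ≠ v → u ≠ w → v ≠ w → (N u ∩ N v ∩ N w).card = 1)
    (u : Fin m) : 2 * (m - 1) ≤ (N u).card := by
  classical
  have huniq : ∀ u v w, u ≠ v → u ≠ w → v ≠ w → ∀ x y, x ∈ N u → x ∈ N v → x ∈ N w →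
      y ∈ N u → y ∈ N v → y ∈ N w → x = y := by
    intro u v w h1 h2 h4 x y a1 a2 a3 b1 b2 b3
    have := Finset.card_le_one.1 (h3 u v w h1 h2 h4).le
    exact this x (by simp [a1, a2, a3]) y (by simp [b1, b2, b3])
  have hex : ∀ u v w, u ≠ v → u ≠ w → v ≠ w → ∃ x, x ∈ N u ∧ x ∈ N v ∧ x ∈ N w := by
    intro u v w h1 h2 h4
    obtain ⟨x, hx⟩ := Finset.card_pos.1 (by rw [h3 u v w h1 h2 h4]; norm_num :
      0 < (N u ∩ N v ∩ N w).card)
    simp only [mem_inter] at hx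
    exact ⟨x, hx.1.1, hx.1.2, hx.2⟩
  have hnt : Nontrivial (Fin m) := Fin.nontrivial_iff_two_le.2 (by omega)
  obtain ⟨v, hv⟩ := exists_ne u
  have huv : u ≠ v := hv.symm
  obtain ⟨x0, hx0⟩ := Finset.card_pos.1 (by have := hlo u v huv; omega : 0 < (N u ∩ N v).card)
  have hf : ∀ w : Fin m, ∃ x, x ∈ N u ∩ N v ∧ (w ≠ u → w ≠ v → x ∈ N w) := by
    intro w
    by_cases h1 : w = u
    · exact ⟨x0, hx0, fun h => absurd h1 h⟩
    by_cases h2 : w = v
    · exact ⟨x0, hx0, fun _ h => absurd h2 h⟩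
    obtain ⟨x, a1, a2, a3⟩ := hex u v w huv (Ne.symm h1) (Ne.symm h2)
    exact ⟨x, by simp [a1, a2], fun _ _ => a3⟩
  choose f hf1 hf2 using hf
  have hcard : ((univ.erase u).erase v).card = m - 2 := by
    rw [card_erase_of_mem (by simp [hv]), card_erase_of_mem (by simp)]
    simp; omega
  obtain ⟨x, hx, hxc⟩ := Finset.exists_lt_card_fiber_of_mul_lt_card_of_maps_to
    (s := (univ.erase u).erase v) (t := N u ∩ N v) (f := f) (n := D)
    (fun w _ => hf1 w) (by
      rw [hcard]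
      have := Nat.mul_le_mul_right D (hup u v huv)
      omega)
  have hxu : x ∈ N u := (mem_inter.1 hx).1
  set L := ((univ.erase u).erase v).filter (fun w => f w = x) with hL
  have hLm : ∀ z ∈ L, z ≠ u ∧ x ∈ N z := by
    intro z hz
    simp only [hL, mem_filter, mem_erase, mem_univ, and_true] at hz
    exact ⟨hz.1.2, hz.2 ▸ hf2 z hz.1.2 hz.1.1⟩
  have hall : ∀ w, x ∈ N w := by
    intro w
    by_contra hw
    have hwu : u ≠ w := by rintro rfl; exact hw hxu
    have hg : ∀ z : Fin m, ∃ y, z ∈ L → (y ∈ N u ∧ y ∈ N w ∧ y ∈ N z) := by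
      intro z
      by_cases hz : z ∈ L
      · obtain ⟨a, b⟩ := hLm z hz
        have hzw : w ≠ z := by rintro rfl; exact hw b
        obtain ⟨y, hy⟩ := hex u w z hwu (Ne.symm a) hzw
        exact ⟨y, fun _ => hy⟩
      · exact ⟨x, fun h => absurd h hz⟩
    choose g hg using hg
    have : L.card ≤ (N u ∩ N w).card := by
      apply Finset.card_le_card_of_injOn g
      · intro z hz
        have := hg z hz
        simp [this.1, this.2.1]
      · intro z hz z' hz' hzz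
        by_contra hne
        obtain ⟨a, b⟩ := hLm z hz
        obtain ⟨a', b'⟩ := hLm z' hz'
        have e1 := hg z hz
        have e2 := hg z' hz'
        have := huniq u z z' (Ne.symm a) (Ne.symm a') hne x (g z) hxu b b' e1.1 e1.2.2
          (hzz ▸ e2.2.2)
        exact hw (this ▸ e1.2.1)
    have := hup u w hwu
    omega
  have hdisj : ∀ a ∈ univ.erase u, ∀ b ∈ univ.erase u, a ≠ b →
      Disjoint ((N u ∩ N a).erase x) ((N u ∩ N b).erase x) := by
    intro a ha b hb hab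
    rw [Finset.disjoint_left]
    intro y h1 h2
    simp only [mem_erase, mem_inter, mem_univ, and_true] at h1 h2 ha hb
    exact h1.1 (huniq u a b (Ne.symm ha) (Ne.symm hb) hab y x h1.2.1 h1.2.2 h2.2.2 hxu
      (hall a) (hall b))
  have hsub : (univ.erase u).biUnion (fun a => (N u ∩ N a).erase x) ⊆ N u := by
    intro y hy
    simp only [mem_biUnion, mem_erase, mem_inter] at hy
    obtain ⟨a, _, h⟩ := hy
    exact h.2.1
  have h1 := card_le_card hsub
  rw [card_biUnion hdisj] at h1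
  have h2 : ∑ a ∈ univ.erase u, 2 ≤ ∑ a ∈ univ.erase u, ((N u ∩ N a).erase x).card := by
    apply Finset.sum_le_sum
    intro a ha
    have ha' : u ≠ a := (Finset.ne_of_mem_erase ha).symm
    have := hlo u a ha'
    have := Finset.pred_card_le_card_erase (s := N u ∩ N a) (a := x)
    omega
  rw [sum_const, card_erase_of_mem (by simp)] at h2
  simp only [card_univ, Fintype.card_fin, smul_eq_mul] at h2
  omega

theorem result (b : ℕ → ℝ) (hpos : ∀ m, 0 < b m) (hb1 : Tendsto b atTop atTop)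
    (hb2 : Tendsto (fun m : ℕ => b m / Real.sqrt m) atTop (𝓝 0))
    (B : ℕ → Type) [∀ m, DecidableEq (B m)] (N : ∀ m : ℕ, Fin m → Finset (B m)) :
    ¬ ((∀ ε : ℝ, 0 < ε → ∀ᶠ m : ℕ in atTop, ∀ u : Fin m,
          |((N m u).card : ℝ) / m - 1| ≤ ε) ∧
       (∀ ε : ℝ, 0 < ε → ∀ᶠ m : ℕ in atTop, ∀ u v : Fin m, u ≠ v →
          |((N m u ∩ N m v).card : ℝ) / b m - 1| ≤ ε) ∧
       (∀ᶠ m : ℕ in atTop, ∀ u v w : Fin m, u ≠ v → u ≠ w → v ≠ w →
          (N m u ∩ N m v ∩ N m w).card = 1)) := by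
  rintro ⟨h1, h2, h3⟩
  have e1 := h1 (1 / 2) (by norm_num)
  have e2 := h2 (1 / 2) (by norm_num)
  have e3 := hb1.eventually_ge_atTop 6
  have e4 := hb2.eventually (gt_mem_nhds (by norm_num : (0 : ℝ) < 1 / 2))
  obtain ⟨m, a1, a2, a3, a4, a5, a6⟩ :=
    (e1.and (e2.and (e3.and (e4.and (h3.and (eventually_ge_atTop 5)))))).exists
  have hm : (5 : ℝ) ≤ m := by exact_mod_cast a6
  have hb := hpos m
  have hs : 0 < Real.sqrt m := Real.sqrt_pos.2 (by linarith)
  have hbs : b m < Real.sqrt m / 2 := by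
    rw [div_lt_iff₀ hs] at a4; linarith
  have hsq : Real.sqrt m * Real.sqrt m = m := Real.mul_self_sqrt (by linarith)
  have hbb : b m * b m < m / 4 := by nlinarith
  have hD0 : (⌊3 / 2 * b m⌋₊ : ℝ) ≤ 3 / 2 * b m := Nat.floor_le (by linarith)
  have hD : ⌊3 / 2 * b m⌋₊ * ⌊3 / 2 * b m⌋₊ + 2 < m := by
    have h0 : (0 : ℝ) ≤ ⌊3 / 2 * b m⌋₊ := Nat.cast_nonneg _
    have : ((⌊3 / 2 * b m⌋₊ : ℝ)) * ⌊3 / 2 * b m⌋₊ + 2 < m := by nlinarith
    exact_mod_cast this
  have u : Fin m := ⟨0, by omega⟩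
  have hc := core m ⌊3 / 2 * b m⌋₊ (N m) hD
    (fun u v h => by
      apply Nat.le_floor
      have := (abs_le.1 (a2 u v h)).2
      have h' : ((N m u ∩ N m v).card : ℝ) / b m ≤ 3 / 2 := by linarith
      rwa [div_le_iff₀ hb] at h')
    (fun u v h => by
      have := (abs_le.1 (a2 u v h)).1
      have h' : 1 / 2 ≤ ((N m u ∩ N m v).card : ℝ) / b m := by linarith
      rw [le_div_iff₀ hb] at h'
      have : (3 : ℝ) ≤ ((N m u ∩ N m v).card : ℝ) := by linarith
      exact_mod_cast this)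
    a5 u
  have := (abs_le.1 (a1 u)).2
  have h' : ((N m u).card : ℝ) / m ≤ 3 / 2 := by linarith
  rw [div_le_iff₀ (by linarith)] at h'
  have h'' : 2 * (N m u).card ≤ 3 * m := by
    have : (2 : ℝ) * (N m u).card ≤ 3 * m := by linarith
    exact_mod_cast this
  omega

end Pool.Agent.Results.MP_8b0535_co.No
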